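import Mathlib

namespace Pool.Agent.Results.MP_64a7c6_pr.NotLogConcave

/-- partitions of `n`, given by their row lengths `l 0 ≥ l 1 ≥ ⋯ ≥ l (n - 1) ≥ 0` -/
def Part (n : ℕ) : Finset (Fin n → Fin (n + 1)) :=
  Finset.univ.filter fun l => (∀ i j, i ≤ j → l j ≤ l i) ∧ ∑ i, (l i).1 = n

/-- a standard Young tableau of shape `l`: `P k` is the cell (row, column) holding the entry `k`;
`P` is a bijection onto the cells, and entries increase along rows and down columns -/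
def SYT {n : ℕ} (l : Fin n → Fin (n + 1)) (P : Fin n → Fin n × Fin n) : Prop :=
  (∀ a b, P a = P b → a = b) ∧ (∀ c, (∃ k, P k = c) ↔ c.2.1 < (l c.1).1) ∧
    ∀ a b, ((P a).1 = (P b).1 ∧ (P a).2 < (P b).2 ∨ (P a).2 = (P b).2 ∧ (P a).1 < (P b).1) → a < b

/-- the number of standard Young tableaux of shape `l` -/
noncomputable def f {n : ℕ} (l : Fin n → Fin (n + 1)) : ℕ := {P | SYT l P}.ncard

/-- the sum of the first `r` row lengths -/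
def S {n : ℕ} (r : ℕ) (l : Fin n → Fin (n + 1)) : ℕ := ∑ i with i.1 < r, (l i).1

/-- the Plancherel probability that the sum of the first `r` row lengths equals `j` -/
noncomputable def prob (n r j : ℕ) : ℚ :=
  (∑ l ∈ Part n with S r l = j, (f l : ℚ) ^ 2) / n.factorial

instance {n : ℕ} (l : Fin n → Fin (n + 1)) (P : Fin n → Fin n × Fin n) : Decidable (SYT l P) := by
  unfold SYT; infer_instance

lemma low (l : Fin 6 → Fin 7) (L : List (Fin 6 → Fin 6 × Fin 6)) (h1 : L.Nodup)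
    (h2 : (L.all fun P => decide (SYT l P)) = true) : L.length ≤ f l := by
  simp only [List.all_eq_true, decide_eq_true_eq] at h2
  rw [← List.toFinset_card_of_nodup h1, ← Set.ncard_coe_finset]
  exact Set.ncard_le_ncard (fun P hP => h2 P (by simpa using hP)) (Set.toFinite _)

def l0 : Fin 6 → Fin 7 := ![1, 1, 1, 1, 1, 1]

def L0 : List (Fin 6 → Fin 6 × Fin 6) :=
  [![(0, 0), (1, 0), (2, 0), (3, 0), (4, 0), (5, 0)]]

lemma f0 : 1 ≤ f l0 := low l0 L0 (by decide +kernel) (by decide +kernel)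

def l1 : Fin 6 → Fin 7 := ![2, 1, 1, 1, 1, 0]

def L1 : List (Fin 6 → Fin 6 × Fin 6) :=
  [![(0, 0), (0, 1), (1, 0), (2, 0), (3, 0), (4, 0)],
   ![(0, 0), (1, 0), (0, 1), (2, 0), (3, 0), (4, 0)],
   ![(0, 0), (1, 0), (2, 0), (0, 1), (3, 0), (4, 0)],
   ![(0, 0), (1, 0), (2, 0), (3, 0), (0, 1), (4, 0)],
   ![(0, 0), (1, 0), (2, 0), (3, 0), (4, 0), (0, 1)]]

def l2 : Fin 6 → Fin 7 := ![3, 2, 1, 0, 0, 0]

def L2 : List (Fin 6 → Fin 6 × Fin 6) :=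
  [![(0, 0), (0, 1), (0, 2), (1, 0), (1, 1), (2, 0)],
   ![(0, 0), (0, 1), (0, 2), (1, 0), (2, 0), (1, 1)],
   ![(0, 0), (0, 1), (1, 0), (0, 2), (1, 1), (2, 0)],
   ![(0, 0), (0, 1), (1, 0), (0, 2), (2, 0), (1, 1)],
   ![(0, 0), (0, 1), (1, 0), (1, 1), (0, 2), (2, 0)],
   ![(0, 0), (0, 1), (1, 0), (1, 1), (2, 0), (0, 2)],
   ![(0, 0), (0, 1), (1, 0), (2, 0), (0, 2), (1, 1)],
   ![(0, 0), (0, 1), (1, 0), (2, 0), (1, 1), (0, 2)],
   ![(0, 0), (1, 0), (0, 1), (0, 2), (1, 1), (2, 0)],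
   ![(0, 0), (1, 0), (0, 1), (0, 2), (2, 0), (1, 1)],
   ![(0, 0), (1, 0), (0, 1), (1, 1), (0, 2), (2, 0)],
   ![(0, 0), (1, 0), (0, 1), (1, 1), (2, 0), (0, 2)],
   ![(0, 0), (1, 0), (0, 1), (2, 0), (0, 2), (1, 1)],
   ![(0, 0), (1, 0), (0, 1), (2, 0), (1, 1), (0, 2)],
   ![(0, 0), (1, 0), (2, 0), (0, 1), (0, 2), (1, 1)],
   ![(0, 0), (1, 0), (2, 0), (0, 1), (1, 1), (0, 2)]]

lemma f2 : 16 ≤ f l2 := low l2 L2 (by decide +kernel) (by decide +kernel)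

def l3 : Fin 6 → Fin 7 := ![4, 1, 1, 0, 0, 0]

def L3 : List (Fin 6 → Fin 6 × Fin 6) :=
  [![(0, 0), (0, 1), (0, 2), (0, 3), (1, 0), (2, 0)],
   ![(0, 0), (0, 1), (0, 2), (1, 0), (0, 3), (2, 0)],
   ![(0, 0), (0, 1), (0, 2), (1, 0), (2, 0), (0, 3)],
   ![(0, 0), (0, 1), (1, 0), (0, 2), (0, 3), (2, 0)],
   ![(0, 0), (0, 1), (1, 0), (0, 2), (2, 0), (0, 3)],
   ![(0, 0), (0, 1), (1, 0), (2, 0), (0, 2), (0, 3)],
   ![(0, 0), (1, 0), (0, 1), (0, 2), (0, 3), (2, 0)],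
   ![(0, 0), (1, 0), (0, 1), (0, 2), (2, 0), (0, 3)],
   ![(0, 0), (1, 0), (0, 1), (2, 0), (0, 2), (0, 3)],
   ![(0, 0), (1, 0), (2, 0), (0, 1), (0, 2), (0, 3)]]

lemma f3 : 10 ≤ f l3 := low l3 L3 (by decide +kernel) (by decide +kernel)

def l4 : Fin 6 → Fin 7 := ![3, 1, 1, 1, 0, 0]

def L4 : List (Fin 6 → Fin 6 × Fin 6) :=
  [![(0, 0), (0, 1), (0, 2), (1, 0), (2, 0), (3, 0)],
   ![(0, 0), (0, 1), (1, 0), (0, 2), (2, 0), (3, 0)],
   ![(0, 0), (0, 1), (1, 0), (2, 0), (0, 2), (3, 0)],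
   ![(0, 0), (0, 1), (1, 0), (2, 0), (3, 0), (0, 2)],
   ![(0, 0), (1, 0), (0, 1), (0, 2), (2, 0), (3, 0)],
   ![(0, 0), (1, 0), (0, 1), (2, 0), (0, 2), (3, 0)],
   ![(0, 0), (1, 0), (0, 1), (2, 0), (3, 0), (0, 2)],
   ![(0, 0), (1, 0), (2, 0), (0, 1), (0, 2), (3, 0)],
   ![(0, 0), (1, 0), (2, 0), (0, 1), (3, 0), (0, 2)],
   ![(0, 0), (1, 0), (2, 0), (3, 0), (0, 1), (0, 2)]]

lemma f4 : 10 ≤ f l4 := low l4 L4 (by decide +kernel) (by decide +kernel)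

def l5 : Fin 6 → Fin 7 := ![4, 2, 0, 0, 0, 0]

def L5 : List (Fin 6 → Fin 6 × Fin 6) :=
  [![(0, 0), (0, 1), (0, 2), (0, 3), (1, 0), (1, 1)],
   ![(0, 0), (0, 1), (0, 2), (1, 0), (0, 3), (1, 1)],
   ![(0, 0), (0, 1), (0, 2), (1, 0), (1, 1), (0, 3)],
   ![(0, 0), (0, 1), (1, 0), (0, 2), (0, 3), (1, 1)],
   ![(0, 0), (0, 1), (1, 0), (0, 2), (1, 1), (0, 3)],
   ![(0, 0), (0, 1), (1, 0), (1, 1), (0, 2), (0, 3)],
   ![(0, 0), (1, 0), (0, 1), (0, 2), (0, 3), (1, 1)],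
   ![(0, 0), (1, 0), (0, 1), (0, 2), (1, 1), (0, 3)],
   ![(0, 0), (1, 0), (0, 1), (1, 1), (0, 2), (0, 3)]]

lemma f5 : 9 ≤ f l5 := low l5 L5 (by decide +kernel) (by decide +kernel)

def l6 : Fin 6 → Fin 7 := ![2, 2, 1, 1, 0, 0]

def L6 : List (Fin 6 → Fin 6 × Fin 6) :=
  [![(0, 0), (0, 1), (1, 0), (1, 1), (2, 0), (3, 0)],
   ![(0, 0), (0, 1), (1, 0), (2, 0), (1, 1), (3, 0)],
   ![(0, 0), (0, 1), (1, 0), (2, 0), (3, 0), (1, 1)],
   ![(0, 0), (1, 0), (0, 1), (1, 1), (2, 0), (3, 0)],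
   ![(0, 0), (1, 0), (0, 1), (2, 0), (1, 1), (3, 0)],
   ![(0, 0), (1, 0), (0, 1), (2, 0), (3, 0), (1, 1)],
   ![(0, 0), (1, 0), (2, 0), (0, 1), (1, 1), (3, 0)],
   ![(0, 0), (1, 0), (2, 0), (0, 1), (3, 0), (1, 1)],
   ![(0, 0), (1, 0), (2, 0), (3, 0), (0, 1), (1, 1)]]

lemma f6 : 9 ≤ f l6 := low l6 L6 (by decide +kernel) (by decide +kernel)

def l7 : Fin 6 → Fin 7 := ![5, 1, 0, 0, 0, 0]

def L7 : List (Fin 6 → Fin 6 × Fin 6) :=
  [![(0, 0), (0, 1), (0, 2), (0, 3), (0, 4), (1, 0)],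
   ![(0, 0), (0, 1), (0, 2), (0, 3), (1, 0), (0, 4)],
   ![(0, 0), (0, 1), (0, 2), (1, 0), (0, 3), (0, 4)],
   ![(0, 0), (0, 1), (1, 0), (0, 2), (0, 3), (0, 4)],
   ![(0, 0), (1, 0), (0, 1), (0, 2), (0, 3), (0, 4)]]

lemma f7 : 5 ≤ f l7 := low l7 L7 (by decide +kernel) (by decide +kernel)

def cell : Fin 6 → Fin 6 × Fin 6 := ![(0, 0), (0, 1), (1, 0), (2, 0), (3, 0), (4, 0)]

def ok (x y : Fin 6) : Prop := x ≠ y ∧
  ¬ ((cell y).1 = (cell x).1 ∧ (cell y).2 < (cell x).2 ∨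
    (cell y).2 = (cell x).2 ∧ (cell y).1 < (cell x).1)

instance (x y : Fin 6) : Decidable (ok x y) := by unfold ok; infer_instance

set_option synthInstance.maxSize 2000 in
lemma up_aux : ∀ a b, ok a b → ∀ c, ok a c → ok b c → ∀ d, ok a d → ok b d → ok c d →
    ∀ e, ok a e → ok b e → ok c e → ok d e → ∀ g, ok a g → ok b g → ok c g → ok d g → ok e g →
    ![cell a, cell b, cell c, cell d, cell e, cell g] ∈ L1 := by decide +kernel

lemma f1 : f l1 ≤ 5 := by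
  have h : {P | SYT l1 P} ⊆ (L1.toFinset : Set (Fin 6 → Fin 6 × Fin 6)) := by
    intro P hP
    have h1 : ∀ c : Fin 6 × Fin 6, c.2.1 < (l1 c.1).1 → ∃ a, cell a = c := by decide +kernel
    choose σ hσ using fun k => h1 (P k) ((hP.2.1 _).1 ⟨k, rfl⟩)
    have h2 : P = ![cell (σ 0), cell (σ 1), cell (σ 2), cell (σ 3), cell (σ 4), cell (σ 5)] := by
      ext1 k
      fin_cases k <;> simp [hσ]
    have h3 : ∀ a b, a < b → ok (σ a) (σ b) := fun a b hab =>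
      ⟨fun h => hab.ne (hP.1 a b (by rw [← hσ, ← hσ, h])), fun h => by
        rw [hσ, hσ] at h
        exact hab.not_gt (hP.2.2 b a h)⟩
    have h5 := up_aux _ _ (h3 0 1 (by decide)) _ (h3 0 2 (by decide)) (h3 1 2 (by decide))
      _ (h3 0 3 (by decide)) (h3 1 3 (by decide)) (h3 2 3 (by decide))
      _ (h3 0 4 (by decide)) (h3 1 4 (by decide)) (h3 2 4 (by decide)) (h3 3 4 (by decide))
      _ (h3 0 5 (by decide)) (h3 1 5 (by decide)) (h3 2 5 (by decide)) (h3 3 5 (by decide))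
      (h3 4 5 (by decide))
    rw [← h2] at h5
    simpa using h5
  have h1 := Set.ncard_le_ncard h (Set.toFinite _)
  rw [Set.ncard_coe_finset] at h1
  exact h1.trans (List.toFinset_card_le L1)

lemma sum_ge (j : ℕ) (T : Finset (Fin 6 → Fin 7))
    (h : ∀ l ∈ T, ((∀ i j, i ≤ j → l j ≤ l i) ∧ ∑ i, (l i).1 = 6) ∧ S 4 l = j) :
    ∑ l ∈ T, (f l : ℚ) ^ 2 ≤ ∑ l ∈ Part 6 with S 4 l = j, (f l : ℚ) ^ 2 :=
  Finset.sum_le_sum_of_subset_of_nonneg (fun l hl => by simpa [Part] using h l hl)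
    fun _ _ _ => sq_nonneg _

theorem result : ∃ n r j : ℕ, 1 ≤ n ∧ 2 ≤ r ∧ 1 ≤ j ∧
    prob n r j ^ 2 < prob n r (j - 1) * prob n r (j + 1) := by
  refine ⟨6, 4, 5, by norm_num, by norm_num, by norm_num, ?_⟩
  have h4 := sum_ge 4 {l0} (by simp only [Finset.mem_singleton, forall_eq]; decide +kernel)
  have h6 := sum_ge 6 {l2, l3, l4, l5, l6, l7} (by
    simp only [Finset.mem_insert, Finset.mem_singleton, forall_eq_or_imp, forall_eq]
    decide +kernel)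
  rw [Finset.sum_singleton] at h4
  rw [Finset.sum_insert (by decide +kernel), Finset.sum_insert (by decide +kernel),
    Finset.sum_insert (by decide +kernel), Finset.sum_insert (by decide +kernel),
    Finset.sum_pair (by decide +kernel)] at h6
  have h5 : ∑ l ∈ Part 6 with S 4 l = 5, (f l : ℚ) ^ 2 ≤ ∑ l ∈ {l1}, (f l : ℚ) ^ 2 := by
    refine Finset.sum_le_sum_of_subset_of_nonneg (fun l hl => ?_) fun _ _ _ => sq_nonneg _
    simp only [Part, S, Finset.mem_filter, Finset.mem_univ, true_and, Finset.sum_filter,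
      Fin.sum_univ_six] at hl
    obtain ⟨⟨h1, h2⟩, h3⟩ := hl
    have a1 : (l 1).1 ≤ (l 0).1 := h1 0 1 (by decide)
    have a2 : (l 2).1 ≤ (l 1).1 := h1 1 2 (by decide)
    have a3 : (l 3).1 ≤ (l 2).1 := h1 2 3 (by decide)
    have a4 : (l 4).1 ≤ (l 3).1 := h1 3 4 (by decide)
    have a5 : (l 5).1 ≤ (l 4).1 := h1 4 5 (by decide)
    simp at h3
    rw [Finset.mem_singleton]
    ext k
    fin_cases k <;> simp [l1] <;> omega
  rw [Finset.sum_singleton] at h5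
  have q : ∀ {a : ℕ} {l : Fin 6 → Fin 7}, a ≤ f l → (a : ℚ) ^ 2 ≤ (f l : ℚ) ^ 2 := fun h => by
    exact_mod_cast Nat.pow_le_pow_left h 2
  have q0 := q f0
  have q2 := q f2
  have q3 := q f3
  have q4 := q f4
  have q5 := q f5
  have q6 := q f6
  have q7 := q f7
  have q1 : (f l1 : ℚ) ^ 2 ≤ 5 ^ 2 := by exact_mod_cast Nat.pow_le_pow_left f1 2
  have h0 : 0 ≤ ∑ l ∈ Part 6 with S 4 l = 5, (f l : ℚ) ^ 2 :=
    Finset.sum_nonneg fun _ _ => sq_nonneg _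
  show prob 6 4 5 ^ 2 < prob 6 4 4 * prob 6 4 6
  unfold prob
  generalize ∑ l ∈ Part 6 with S 4 l = 5, (f l : ℚ) ^ 2 = x at *
  generalize ∑ l ∈ Part 6 with S 4 l = 4, (f l : ℚ) ^ 2 = y at *
  generalize ∑ l ∈ Part 6 with S 4 l = 6, (f l : ℚ) ^ 2 = z at *
  push_cast at *
  have hy : 1 ≤ y := by linarith
  have hz : 643 ≤ z := by linarith
  have hx : x ≤ 25 := by linarith
  rw [div_pow, div_mul_div_comm, ← sq]
  refine div_lt_div_of_pos_right ?_ (by positivity)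
  nlinarith

end Pool.Agent.Results.MP_64a7c6_pr.NotLogConcave
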